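import Mathlib
import Pool.Agent.TH115.GD.Defs
import Pool.Agent.TH115.ID.Defs
import Pool.Agent.R939.EI.Crit
import Pool.Agent.R939.EI.Den2
import Pool.Agent.R939.BC.Cov

/-!
# The Tate conjecture at 2 for almost all base changes of elliptic surfaces, with sections

Let `k` be a number field, `K = k(t)`, `F = k'(t)` with `k'` a separable closure of `k`, and let
`E : y² = x (x² + a x + b)` be an elliptic curve over `K`, `a`, `b` polynomials. Suppose that `E`
satisfies the criterion `Pool.Agent.Results.MP_89bcae_ag.DescentOverConstants`: neither `b` nor
`a² - 4 b` is a constant times a square or a norm from a quadratic extension of `k`, and for the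
divisors `A` of `b` such that a constant times `A` is a norm from `K(√(a² - 4 b))`, and for the
corresponding divisors of `a² - 4 b`, there are points over `K`. So `E` can have positive rank, and `b`
and `a² - 4 b` can have any number of prime divisors; examples are the surfaces of
`Pool.Agent.Results.MP_1bad5e_ag.CollidingFibres`.

Theorem. Let `m` be odd. Then for 100 percent of the polynomials `h` of degree at most `m` with
coefficients in the ring of integers of `k`, ordered by the maximum of the coordinates of the
coefficients, `h` has degree `m` and the Tate conjecture at 2 holds for the elliptic surface with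
generic fibre `y² = x (x² + a(h(t)) x + b(h(t)))`. (For `m` fixed and any `E`; the elliptic surfaces
over the projective line with a singular fibre are geometrically simply connected, and the geometric
genus is multiplied by about `m`.)

Proof. By `Pool.Agent.Results.MP_0d42ed_ag.OddBaseChange` it is enough that the primes which divide
`b (a² - 4 b)` remain prime after `t ↦ h(t)`. If a prime `q` does not remain prime for a set of
polynomials `h` of positive upper density, then by a transfer principle (`Pool.Agent.R939.BC.Tr`) the
equation `h(θ) = α`, with `α` a root of `q` and `h` the generic polynomial over `k`, has a solution of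
degree less than `m` over the constants `L = k(α)`. The solution can be specialized to local fields in
which `α` is a `p`-adic integer and `h` is close to `t ^ m + α + p`; then `θ ^ m` is `-p` times a unit,
and the ramification is at least `m`, a contradiction.
-/

namespace Pool.Agent.Results.MP_1bad5e_ag.AlmostAllOddCovers

open Polynomial NumberField Pool.Agent.TH115.GD Pool.Agent.R939.EI

theorem result {k k' K F : Type} [Field k] [NumberField k] [Field k'] [Algebra k k'] [Field K]
    [Algebra k[X] K] [Field F] [Algebra k'[X] F] [IsFractionRing k'[X] F] [Algebra K F]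
    (hT : IsTower k k' K F) {J : Type} [Fintype J] (B : Module.Basis J ℤ (𝓞 k)) {a b : k[X]}
    (hb : b ≠ 0) (hd : a ^ 2 - 4 * b ≠ 0) (hNb : NotNorm b) (hNd : NotNorm (a ^ 2 - 4 * b))
    (hpA : PointsForNorms K F a b) (hpB : PointsForNorms K F (-2 * a) (a ^ 2 - 4 * b))
    {m : ℕ} (hm : Odd m) {η : ℝ} (hη : 0 < η) :
    ∃ H0 : ℕ, ∀ H : ℕ, H0 ≤ H →
      (({x : Fin (m + 1) → 𝓞 k | (∀ j t, |B.repr (x j) t| ≤ (H : ℤ)) ∧
        ¬ ((polA fun j => algebraMap (𝓞 k) k (x j)).natDegree = m ∧
          TateAtTwo (F := F) k' (crvT
            (algebraMap k[X] K (a.comp (polA fun j => algebraMap (𝓞 k) k (x j))))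
            (algebraMap k[X] K (b.comp (polA fun j => algebraMap (𝓞 k) k (x j))))))}.ncard : ℕ) :
              ℝ) ≤
        η * (2 * H + 1) ^ (Fintype.card J * (m + 1)) :=
  Pool.Agent.R939.BC.almost_all_covers hT B hb hd hNb hNd hpA hpB hm hη

end Pool.Agent.Results.MP_1bad5e_ag.AlmostAllOddCovers
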