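import Mathlib
import Pool.Agent.TH115.GD.Defs
import Pool.Agent.R939.EI.Gen6
import Pool.Agent.R939.PP.All

/-!
# The Tate conjecture at 2 for almost all elliptic surfaces in all the odd layers `t ↦ tᴹ` at once

Let `k` be a number field, `K = k(t)`, `F = k'(t)` with `k'` a separable closure of `k`. Every elliptic
curve over `K` with a rational point of order two has an equation `E : y² = x (x² + a x + b)` with
polynomials `a`, `b`. `TateAtTwo` says that all the classes in `V₂ Sel(E / F)` which are fixed by the
Galois group of `k` come from `E(K)`: the Tate conjecture for divisors at the prime 2 on the elliptic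
surface over the projective line with generic fibre `E`. These surfaces are geometrically simply
connected.

Fix `r ≥ 2`, `m₁, …, m_s ≥ 1`, not all equal to 2, and `n₁, …, n_u ≥ 1` (`u = 0` is allowed). Let `a` of
degree at most `r`, `b_i` of degree at most `m_i` and `D_l` of degree at most `n_l` run through the
polynomials whose coefficients are integers of `k` with coordinates between `-H` and `H`; let
`b = b₁ ⋯ b_s`, `D = D₁ ⋯ D_u`.

Theorem. For all `(a, b₁, …, b_s, D₁, …, D_u)`, with the exception of a proportion which tends to zero if
`H` tends to infinity, the following holds: for ALL odd `M` and ALL constants `c ≠ 0` the Tate conjecture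
at 2 holds for the elliptic surface

  `y² = x (x² + c a(tᴹ) D(tᴹ) x + c² b(tᴹ) D(tᴹ)²)`,

the base change by `t ↦ tᴹ` of the quadratic twist by `c D` of `E`.

So almost every surface of the family gives surfaces of unbounded genus for which the Tate conjecture at
2 holds, all the odd layers of the tower `t ↦ tᴹ`; there is no hypothesis on the members.

Proof. By `Pool.Agent.Results.MP_021685_ag.AlmostAllSurfaces` it is enough that the primes which divide
`b (a² - 4 b) D` remain prime after `t ↦ tᴹ`. By the theorem of Vahlen and Capelli this holds if the root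
`θ` of such a prime is not an `ℓ`-th power in `k(θ)` for all odd primes `ℓ`. The exceptions are a union
of infinitely many thin sets, and it is not enough that each of them has density zero. If `θ` is an
`ℓ`-th power then so is, up to sign, its norm, the quotient `U / V` of the last and the first coefficient
of the prime. For `b_i` and `D_l` these are independent parameters; for `d = a² - 4 b` they are
`U = a(0)² - 4 b₁(0) ⋯ b_s(0)` and the leading coefficient `V` of `d`, a square, a product or a number of
the same shape as `U`. It is shown that `U / V` is a perfect power (of any exponent) for 0 percent of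
the parameters (`Pool.Agent.R939.PP.Perf`). For this it is shown that values of polynomials which are
linear in one of the variables are rarely divisible by the `L`-th power of any prime ideal
(`Pool.Agent.R939.PP.Shal`: the upper density tends to zero if `L` tends to infinity), by a count along
the lines of this variable. If neither `U` nor `V` has this property and the exponent is at least `L`, then
`U` and `V` generate the same ideal and their norms satisfy a polynomial equation. For each of the
finitely many exponents less than `L` the set is thin.
-/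

namespace Pool.Agent.Results.MP_1bad5e_ag.AlmostAllSurfacesAllLayers

open Polynomial NumberField Pool.Agent.TH115.GD Pool.Agent.R939.EI

theorem result {k k' K F : Type} [Field k] [NumberField k] [Field k'] [Algebra k k'] [Field K]
    [Algebra k[X] K] [Field F] [Algebra k'[X] F] [IsFractionRing k'[X] F] [Algebra K F]
    (hT : IsTower k k' K F) {J : Type} [Fintype J] (B : Module.Basis J ℤ (𝓞 k)) {r s u : ℕ}
    {m : Fin s → ℕ} {n : Fin u → ℕ} (hr : 2 ≤ r) (hm : ∀ i, 1 ≤ m i) (h2 : ∃ i, m i ≠ 2)
    (hn : ∀ l, 1 ≤ n l) {η : ℝ} (hη : 0 < η) :
    ∃ H0 : ℕ, ∀ H : ℕ, H0 ≤ H →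
      (({x : (Fin (r + 1) → 𝓞 k) × ((i : Fin s) → Fin (m i + 1) → 𝓞 k) ×
          ((l : Fin u) → Fin (n l + 1) → 𝓞 k) |
        ((∀ j t, |B.repr (x.1 j) t| ≤ (H : ℤ)) ∧ (∀ i j t, |B.repr (x.2.1 i j) t| ≤ (H : ℤ)) ∧
          ∀ l j t, |B.repr (x.2.2 l j) t| ≤ (H : ℤ)) ∧
        ¬ ∀ M : ℕ, Odd M → ∀ c : k, c ≠ 0 → TateAtTwo (F := F) k' (crvT
          (algebraMap k[X] K ((C c * ((polA fun j => algebraMap (𝓞 k) k (x.1 j)) *
            ∏ l, polA fun j => algebraMap (𝓞 k) k (x.2.2 l j))).comp (X ^ M)))
          (algebraMap k[X] K ((C (c ^ 2) * ((polP fun i j => algebraMap (𝓞 k) k (x.2.1 i j)) *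
            (∏ l, polA fun j => algebraMap (𝓞 k) k (x.2.2 l j)) ^ 2)).comp (X ^ M))))}.ncard : ℕ) :
          ℝ) ≤
        η * (2 * H + 1) ^ (Fintype.card J * (r + 1 + ∑ i, (m i + 1) + ∑ l, (n l + 1))) :=
  Pool.Agent.R939.PP.almost_layers hT B hr hm hn h2 hη

end Pool.Agent.Results.MP_1bad5e_ag.AlmostAllSurfacesAllLayers
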