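import Mathlib
import Pool.Agent.TH115.GD.Defs
import Pool.Agent.TH115.ID.Defs
import Pool.Agent.R939.EI.Fam6

/-!
# The Tate conjecture at 2 for elliptic surfaces with many rational reducible fibres

Let `k` be a field of characteristic different from 2 (for example finitely generated over its
prime field), `k'` a separable closure, `K = k(t)`, `F = k'(t)`. `TateAtTwo` for an elliptic curve
`E` over `K` says that all the classes in `V₂ Sel(E / F)` which are fixed by the Galois group of `k`
come from `E(K)`; this is the Tate conjecture for divisors at the prime 2 on the elliptic surface
over the projective line with generic fibre `E`.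

Theorem. Let `E : y² = x (x² + a x + b)`, `b = u (t - c 0) ... (t - c (n - 1))` with `n ≥ 3` odd, `n ≠ 0` in
`k`, different constants `c i`, and `a` a polynomial over `k` of degree smaller than `n / 2`. Suppose
that there is a place of `k` at which the `c i` and `a` are congruent to zero and `a 0` is a uniformizer
(`PlaceZ`), and that for every proper nonempty set `S` of the indices there is a place of `k` at which

* `a` is congruent to zero and the differences `c i - c j` are units such that some of the Legendre
  symbols of `ε ∏_{j ∈ S} (c i - c j)`, `i ∉ S`, and `ε u ∏_{j ∉ S} (c i - c j)`, `i ∈ S`, are nontrivial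
  for all units `ε` (`PlaceA`), or
* `a` is congruent to zero and the fibres over `c i` and `c j` collide to order two, for some `i ∈ S` and
  `j ∉ S` (`PlaceB`).

Then the Tate conjecture at 2 holds for `E`.

For instance it suffices that the graph of the collisions is connected. If `k = ℚ` and `q, p₁, ...,
p_{n-1}` are different odd primes the conditions say: `u` is prime to all of them, `q ∣ c i`,
`p_i² ∣ c i - c (i - 1)` and there are no other congruences between the `c j` modulo `p_i`,
`q p₁ ⋯ p_{n-1}` divides `a`, `q²` does not divide `a 0` and `p_i²` does not divide `a (c i)`. There are
such surfaces over any number field, of any geometric genus, with any odd number `n ≥ 3` of fibres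
of type `I₂` over rational points.

The proof is a descent by 2-isogenies over `k(t)`: the first layer of a class which is fixed by the
Galois group gives a product `A` of some of the `t - c i` and a constant `ε` such that the quaternion
algebra `(ε A, a² - 4 b)` over `k(t)` splits. The places in the theorem show that this is impossible
(`Pool.Agent.R939.EI.Fam3`), by specialization to the residue field, and in the second case by
comparing two such specializations, at `t` and at `(t - c i) / ϖ`: one of them says that the
valuation of `ε` is even and the other one that it is odd.
-/

namespace Pool.Agent.Results.MP_1bad5e_ag.CollidingFibres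

open Polynomial Pool.Agent.TH115.GD Pool.Agent.R939.EI

theorem result {k k' K F : Type} [Field k] [Field k'] [Algebra k k'] [Field K] [Algebra k[X] K]
    [Field F] [Algebra k'[X] F] [IsFractionRing k'[X] F] [Algebra K F] (hT : IsTower k k' K F)
    {n : ℕ} (hn : Odd n) (h3 : 3 ≤ n) (hnk : (n : k) ≠ 0) {c : Fin n → k}
    (hc : Function.Injective c) {u : k} {a b : k[X]} (hdeg : 2 * a.natDegree < n)
    (hb : b = C u * ∏ i, (X - C (c i)))
    (hZ : ∃ w : ValuationSubring k, PlaceZ w a u c)
    (hS : ∀ S : Finset (Fin n), S ≠ ∅ → S ≠ Finset.univ →
      ∃ w : ValuationSubring k, PlaceA w a u c S ∨ ∃ i ∈ S, ∃ j ∉ S, PlaceB w a u c i j) :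
    TateAtTwo (F := F) k' (crvT (algebraMap k[X] K a) (algebraMap k[X] K b)) := by
  subst hb
  exact family_places hT hn h3 hnk hc hdeg hZ hS

end Pool.Agent.Results.MP_1bad5e_ag.CollidingFibres
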