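import Pool.Agent.R427.TS3
import Pool.Agent.R427.LC2

/-!
# Elliptic surfaces attached to three prime polynomials

Let `k` be a finite field with `q` elements, `q` congruent to `2` modulo three, and let `p`, `q`, `r` be
three irreducible polynomials over `k` of degrees prime to three. The curve
`y ^ 2 + (p - q - r) x y + p q r y = x ^ 3` over `k(t)` has the point `(0, 0)` of order three and the point
`(p q, p q ^ 2)` of infinite order. If the degree of `p - q - r` is at most a third of the degree of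
`p q r` and `(p - q - r) ^ 3 - 27 p q r` has no irreducible factor of even degree, then the rank and the
order of vanishing of the `L`-function are both one, provided the rank is at most the order.
-/

set_option autoImplicit false
set_option linter.all false
set_option maxHeartbeats 4000000

open Polynomial Pool.Agent.W343.BSD Pool.Agent.W313.Gr

namespace Pool.Agent.Results.MP_1bad5e_ag.ThreePrimes

section defs

/-- The coefficient of `x` of the short form of `y ^ 2 + e x y + f y = x ^ 3`. -/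
def coeffA {R : Type} [CommRing R] (e f : R) : R := -27 * (e ^ 4 - 24 * e * f)

/-- The constant coefficient of the short form of `y ^ 2 + e x y + f y = x ^ 3`. -/
def coeffB {R : Type} [CommRing R] (e f : R) : R := 54 * (e ^ 6 - 36 * e ^ 3 * f + 216 * f ^ 2)

variable {k K : Type} [Field k] [Field K] [Algebra k K]

/-- The polynomials `p`, `q`, `r` are irreducible and pairwise non-associated. -/
def Distinct (p q r : k[X]) : Prop :=
  (Irreducible p ∧ Irreducible q ∧ Irreducible r) ∧
    ¬ Associated p q ∧ ¬ Associated p r ∧ ¬ Associated q r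

/-- The polynomials `p`, `q`, `r` are irreducible, pairwise non-associated and of degrees prime to three,
the degree of `p q r` is divisible by three, the degree of `p - q - r` is at most a third of it, and all
irreducible factors of `(p - q - r) ^ 3 - 27 p q r` are of odd degree. -/
def IsTriple (p q r : k[X]) : Prop :=
  Distinct p q r ∧ (¬ 3 ∣ p.natDegree ∧ ¬ 3 ∣ q.natDegree ∧ ¬ 3 ∣ r.natDegree) ∧
    3 ∣ (p * q * r).natDegree ∧ 3 * (p - q - r).natDegree ≤ (p * q * r).natDegree ∧
    ∀ π : k[X], Irreducible π → π ∣ (p - q - r) ^ 3 - 27 * (p * q * r) → Odd π.natDegree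

/-- `L(T, E)` is `(1 - |k| T) ^ m G(T)`. -/
def LIs (k : Type) {K : Type} [Field k] [Field K] [Algebra k K] (a b : K) (m : ℕ) (G : ℤ[X]) :
    Prop :=
  S.Lfun k a b = (((1 - C (Nat.card k : ℤ) * X) ^ m * G : ℤ[X]) : PowerSeries ℤ)

/-- The rational number `G(1 / |k|)` is not zero and its `3`-adic valuation is zero. -/
def UnitAt (k : Type) (G : ℤ[X]) : Prop :=
  (G.map (Int.castRingHom ℚ)).eval ((Nat.card k : ℕ) : ℚ)⁻¹ ≠ 0 ∧
    padicValRat 3 ((G.map (Int.castRingHom ℚ)).eval ((Nat.card k : ℕ) : ℚ)⁻¹) = 0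

/-- The rank is at least one. If `L(T, E) = (1 - |k| T) ^ m G(T)` with `G` in `ℤ[T]`, then `m ≤ 1`, and if
`m = 1` then `UnitAt` holds for `G`. If `L(T, E)` is a polynomial with order of vanishing `r` at
`1 / |k|` then `r ≤ 1`, and if the rank is at most `r` then `r` and the rank are one. -/
def RankOne (k : Type) {K : Type} [Field k] [Field K] [Algebra k K] (a b : K) : Prop :=
  1 ≤ rank a b ∧ (∀ (m : ℕ) (G : ℤ[X]), LIs k a b m G → m ≤ 1 ∧ (m = 1 → UnitAt k G)) ∧
    ∀ r : ℕ, HasOrder k a b r → r ≤ 1 ∧ (rank a b ≤ r → r = 1 ∧ rank a b = 1)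

/-- `y ^ 2 = x ^ 3 + a x + b` is an elliptic curve with a non-constant `j`-invariant
`6912 a ^ 3 / (4 a ^ 3 + 27 b ^ 2)`. -/
def NonIsotrivial (k : Type) {K : Type} [Field k] [Field K] [Algebra k K] (a b : K) : Prop :=
  4 * a ^ 3 + 27 * b ^ 2 ≠ 0 ∧
    ∀ c : k, 6912 * a ^ 3 / (4 * a ^ 3 + 27 * b ^ 2) ≠ algebraMap k K c

/-- The polynomials `p - q - r` and `p q r` as elements of `K`, evaluated at `h`. -/
noncomputable def pe (p q r : k[X]) (h : K) : K := aeval h (p - q - r)

/-- The polynomials `p - q - r` and `p q r` as elements of `K`, evaluated at `h`. -/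
noncomputable def pf (p q r : k[X]) (h : K) : K := aeval h (p * q * r)

end defs

section proof

open Pool.Agent.R427

variable {k : Type} [Field k]

theorem tri_of {p q r : k[X]} (h : IsTriple p q r) : TS.Tri p q r :=
  ⟨h.1.1.1, h.1.1.2.1, h.1.1.2.2, h.1.2.1, h.1.2.2.1, h.1.2.2.2, h.2.1.1, h.2.1.2.1, h.2.1.2.2,
    h.2.2.1, h.2.2.2.1, h.2.2.2.2⟩

theorem of_tri {p q r : k[X]} (h : TS.Tri p q r) : IsTriple p q r :=
  ⟨⟨⟨h.ip, h.iq, h.ir⟩, h.npq, h.npr, h.nqr⟩, ⟨h.dp, h.dq, h.dr⟩, h.d3, h.de, h.odd⟩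

theorem map_A {R S : Type} [CommRing R] [CommRing S] (φ : R →+* S) (e f : R) :
    φ (coeffA e f) = coeffA (φ e) (φ f) := TS.map_sA φ e f

theorem map_B {R S : Type} [CommRing R] [CommRing S] (φ : R →+* S) (e f : R) :
    φ (coeffB e f) = coeffB (φ e) (φ f) := TS.map_sB φ e f

theorem aeval_X' (g : k[X]) : aeval (RatFunc.X : RatFunc k) g = algebraMap k[X] (RatFunc k) g := by
  rw [← RatFunc.algebraMap_X, aeval_algebraMap_apply, aeval_X_left_apply]

variable [Finite k]

/-- the positive rank over `k(t)` -/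
theorem rank_base (h6 : (6 : k) ≠ 0) (hq : Nat.card k % 3 = 2) {p q r : k[X]}
    (h : Distinct p q r) :
    1 ≤ rank (coeffA (algebraMap k[X] (RatFunc k) (p - q - r))
        (algebraMap k[X] (RatFunc k) (p * q * r)))
      (coeffB (algebraMap k[X] (RatFunc k) (p - q - r))
        (algebraMap k[X] (RatFunc k) (p * q * r))) := by
  have h2 : (2 : k) ≠ 0 := fun e => h6 (by linear_combination 3 * e)
  have h3 : (3 : k) ≠ 0 := fun e => h6 (by linear_combination 2 * e)
  exact TS.rank_pos h2 h3 (TS.neg_three h6 hq) h.1.1 h.1.2.1 h.1.2.2 h.2.1 h.2.2.1 h.2.2.2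

theorem rank_pull {K : Type} [Field K] [Algebra k K] [FF.IsFF k K] (h6 : (6 : k) ≠ 0)
    (hq : Nat.card k % 3 = 2) {p q r : k[X]} (h : Distinct p q r) {f : K}
    (hf : Transcendental k f) :
    1 ≤ rank (coeffA (pe p q r f) (pf p q r f)) (coeffB (pe p q r f) (pf p q r f)) := by
  obtain ⟨Φ, hX⟩ := TH180.R4.exists_lift hf
  letI : Algebra (RatFunc k) K := Φ.toRingHom.toAlgebra
  have hΦa : ∀ x : RatFunc k, algebraMap (RatFunc k) K x = Φ x := fun _ => rfl
  have hΦp : ∀ g : k[X], Φ (algebraMap k[X] (RatFunc k) g) = aeval f g := by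
    intro g
    rw [← aeval_X', ← hX]
    exact (aeval_algHom_apply Φ RatFunc.X g).symm
  have h1 := rank_mono (K' := K) (coeffA (algebraMap k[X] (RatFunc k) (p - q - r))
        (algebraMap k[X] (RatFunc k) (p * q * r)))
      (coeffB (algebraMap k[X] (RatFunc k) (p - q - r))
        (algebraMap k[X] (RatFunc k) (p * q * r)))
  rw [map_A, map_B, hΦa, hΦa, hΦp, hΦp] at h1
  exact (rank_base h6 hq h).trans h1

theorem tri_rank (h6 : (6 : k) ≠ 0) (hq : Nat.card k % 3 = 2) {p q r : k[X]}
    (h : IsTriple p q r) :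
    RankOne k (coeffA (algebraMap k[X] (RatFunc k) (p - q - r))
        (algebraMap k[X] (RatFunc k) (p * q * r)))
      (coeffB (algebraMap k[X] (RatFunc k) (p - q - r))
        (algebraMap k[X] (RatFunc k) (p * q * r))) := by
  have hT := tri_of h
  have h3 : (3 : k) ≠ 0 := fun e => h6 (by linear_combination 2 * e)
  have hK : IsCurveField k (RatFunc k) := Pool.Agent.TH958.T4.isCurveField_rat
  haveI : FF.IsFF k (RatFunc k) := ⟨hK.essFiniteType, hK.trdeg_eq_one⟩
  haveI : Fact (Nat.Prime 3) := ⟨Nat.prime_three⟩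
  have hr : constDeg k (RatFunc k) = 1 := TH958.T4.constDeg_eq_one hK.algClosed
  have hf0 : p * q * r ≠ 0 := mul_ne_zero (mul_ne_zero hT.ip.ne_zero hT.iq.ne_zero) hT.ir.ne_zero
  have hg0 := hT.node_ne h3
  have hΔ := TS.disc_ne h6 hf0 hg0
  obtain ⟨m, hm⟩ := hT.d3
  have hde := hT.de
  have hw := TS.sum_rat h6 hq (m := m) (by omega) hm hf0 hg0 hT.odd
  have hw2 := hw.trans (TS.sum_three hT.ip hT.iq hT.ir hT.dp hT.dq hT.dr)
  have hrk := rank_base h6 hq h.1
  have h3' : ((3 : ℕ) : k) ≠ 0 := by exact_mod_cast h3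
  have hroot : rootSum 3 k 1 = 0 := by
    unfold rootSum
    rw [Polynomial.map_one]
    have h : ∀ x : ZMod 3, (1 : (ZMod 3)[X]).rootMultiplicity x = 0 := by
      intro x
      apply rootMultiplicity_eq_zero
      rw [IsRoot.def, eval_one]
      exact one_ne_zero
    rw [h, h]
  have hN := TH639.B3.pointsDvd_three h6 (TS.isT3 _ _) hΔ
  have key : ∀ (m : ℕ) (G : ℤ[X]), LIs k (coeffA (algebraMap k[X] (RatFunc k) (p - q - r))
        (algebraMap k[X] (RatFunc k) (p * q * r)))
      (coeffB (algebraMap k[X] (RatFunc k) (p - q - r))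
        (algebraMap k[X] (RatFunc k) (p * q * r))) m G → m ≤ 1 ∧ (m = 1 → UnitAt k G) := by
    intro m G hG
    refine LC.fam (l := 3) (P := 1) h3' hΔ hN
      ((S.isZetaNum_iff 1).1 Pool.Agent.W309.RF.isZetaNum_rat) hr ?_ hG
    rw [hroot]
    have h5 := hw2
    show 0 + weightSum 3 k _ _ ≤ _
    have h7 : weightSum 3 k (TS.sA (W309.RF.A (p - q - r)) (W309.RF.A (p * q * r)))
      (TS.sB (W309.RF.A (p - q - r)) (W309.RF.A (p * q * r))) ≤ 3 := hw2
    refine le_trans (le_of_eq ?_) (le_trans h7 ?_)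
    · rw [zero_add]
    · omega
  refine ⟨hrk, key, fun r' hr' => ?_⟩
  have h8 : ((1 : ℕ) : Cardinal) ≤ rank (coeffA (algebraMap k[X] (RatFunc k) (p - q - r))
        (algebraMap k[X] (RatFunc k) (p * q * r)))
      (coeffB (algebraMap k[X] (RatFunc k) (p - q - r))
        (algebraMap k[X] (RatFunc k) (p * q * r))) := by
    rw [Nat.cast_one]
    exact hrk
  obtain ⟨h9, h10⟩ := TH180.R4.concl4 h8 (fun m hm => by
    obtain ⟨G, hG⟩ := hm
    exact (key m G hG).1) r' hr'
  refine ⟨h9, fun hle => ?_⟩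
  obtain ⟨h11, h12⟩ := h10 hle
  exact ⟨h11, by rw [h12, Nat.cast_one]⟩

theorem noniso (h6 : (6 : k) ≠ 0) {p q r : k[X]} (h : IsTriple p q r) (hne : p ≠ q + r) :
    NonIsotrivial k (coeffA (algebraMap k[X] (RatFunc k) (p - q - r))
        (algebraMap k[X] (RatFunc k) (p * q * r)))
      (coeffB (algebraMap k[X] (RatFunc k) (p - q - r))
        (algebraMap k[X] (RatFunc k) (p * q * r))) := by
  have hT := tri_of h
  have h2 : (2 : k) ≠ 0 := fun e => h6 (by linear_combination 3 * e)
  have h3 : (3 : k) ≠ 0 := fun e => h6 (by linear_combination 2 * e)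
  have hf0 : p * q * r ≠ 0 := mul_ne_zero (mul_ne_zero hT.ip.ne_zero hT.iq.ne_zero) hT.ir.ne_zero
  have hΔ := TS.disc_ne h6 hf0 (hT.node_ne h3)
  refine ⟨hΔ, fun c hc => ?_⟩
  have h5 := (div_eq_iff hΔ).1 hc
  apply hT.noniso h2 h3 hne c
  apply RatFunc.algebraMap_injective k
  rw [map_mul, map_pow, map_mul, map_add, map_mul, map_mul, map_pow, map_pow, TS.map_sA, TS.map_sB,
    map_ofNat, map_ofNat, map_ofNat]
  exact h5

end proof

/-- Let `k` be a finite field of characteristic at least five whose number of elements is congruent to `2`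
modulo three. For `e`, `f` in a field `K` over `k` let `E(e, f)` be the curve
`y ^ 2 = x ^ 3 + A(e, f) x + B(e, f)`, the short form of `y ^ 2 + e x y + f y = x ^ 3`.

(1) Let `p`, `q`, `r` in `k[t]` be irreducible and pairwise non-associated. For all function fields `K` of
curves over `k` and all non-constant `h` in `K`, the rank of `E((p - q - r)(h), (p q r)(h))` over `K` is at
least one.

(2) If `(p, q, r)` is a triple as above, then `RankOne` holds for the curve `E(p - q - r, p q r)` over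
`k(t)`: the rank is at least one, the order of vanishing of the `L`-function at `s = 1` is at most one,
both are one if the rank is at most the order, and if `L(T, E) = (1 - |k| T) G(T)` with `G` in `ℤ[T]` then
`G(1 / |k|)` is not zero and has `3`-adic valuation zero. If `p ≠ q + r` the `j`-invariant of the curve is
not constant.

(3) If `(p, q, r)` is a triple such that `p q r` and `(p - q - r) ^ 3 - 27 p q r` do not vanish at `0`, and
`l` is a prime dividing `|k| - 1` and larger than twice the degree of `p q r`, then for some `c` in `k`,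
not zero, the polynomials `p(c t ^ (l ^ j))`, `q(c t ^ (l ^ j))`, `r(c t ^ (l ^ j))` form a triple for all
`j`.

(4) If `l ≥ 5` is a prime dividing `|k| - 1` and `u` in `k` is not a root of
`u (u + 1) (u - 1) (u + 2) (2 u + 1)`, then for some `c` in `k`, not zero, the polynomials
`1 + u ^ 3 c t ^ (l ^ j)`, `-(1 + c t ^ (l ^ j))`, `-(1 - (u + 1) ^ 3 c t ^ (l ^ j))` form a triple for all
`j`. -/
theorem result (k : Type) [Field k] [Finite k] (h6 : (6 : k) ≠ 0) (hq : Nat.card k % 3 = 2) :
    (∀ p q r : k[X], Distinct p q r → ∀ (K : Type) [Field K] [Algebra k K], IsCurveField k K →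
      ∀ h : K, (∀ c : k, h ≠ algebraMap k K c) →
        1 ≤ rank (coeffA (pe p q r h) (pf p q r h)) (coeffB (pe p q r h) (pf p q r h))) ∧
    (∀ p q r : k[X], IsTriple p q r →
      RankOne k (coeffA (algebraMap k[X] (RatFunc k) (p - q - r))
          (algebraMap k[X] (RatFunc k) (p * q * r)))
        (coeffB (algebraMap k[X] (RatFunc k) (p - q - r))
          (algebraMap k[X] (RatFunc k) (p * q * r))) ∧
      (p ≠ q + r → NonIsotrivial k (coeffA (algebraMap k[X] (RatFunc k) (p - q - r))
          (algebraMap k[X] (RatFunc k) (p * q * r)))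
        (coeffB (algebraMap k[X] (RatFunc k) (p - q - r))
          (algebraMap k[X] (RatFunc k) (p * q * r))))) ∧
    (∀ p q r : k[X], IsTriple p q r → p.coeff 0 * q.coeff 0 * r.coeff 0 ≠ 0 →
      (p.coeff 0 - q.coeff 0 - r.coeff 0) ^ 3 ≠ 27 * (p.coeff 0 * q.coeff 0 * r.coeff 0) →
      ∀ l : ℕ, l.Prime → 2 * (p * q * r).natDegree < l → l ∣ Nat.card k - 1 →
        ∃ c : k, c ≠ 0 ∧ ∀ j : ℕ, IsTriple (p.comp (C c * X ^ l ^ j)) (q.comp (C c * X ^ l ^ j))
          (r.comp (C c * X ^ l ^ j))) ∧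
    ∀ l : ℕ, l.Prime → 5 ≤ l → l ∣ Nat.card k - 1 →
      ∀ u : k, u * (u + 1) * (u - 1) * (u + 2) * (2 * u + 1) ≠ 0 → ∃ c : k, c ≠ 0 ∧ ∀ j : ℕ,
        IsTriple (1 + C (u ^ 3 * c) * X ^ l ^ j) (-(1 + C c * X ^ l ^ j))
          (-(1 - C ((u + 1) ^ 3 * c) * X ^ l ^ j)) := by
  have h2 : (2 : k) ≠ 0 := fun e => h6 (by linear_combination 3 * e)
  have h3 : (3 : k) ≠ 0 := fun e => h6 (by linear_combination 2 * e)
  refine ⟨?_, ?_, ?_, ?_⟩
  · intro p q r hd K _ _ hK h hh
    haveI : FF.IsFF k K := ⟨hK.essFiniteType, hK.trdeg_eq_one⟩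
    have hr : constDeg k K = 1 := Pool.Agent.TH958.T4.constDeg_eq_one hK.algClosed
    exact rank_pull h6 hq hd (Pool.Agent.TH180.R2.transc hr hh)
  · intro p q r h
    exact ⟨tri_rank h6 hq h, fun hne => noniso h6 h hne⟩
  · intro p q r h h0 h1 l hl hl3 hd
    have hT := tri_of h
    have hf3 : 3 ≤ (p * q * r).natDegree := by
      rw [natDegree_mul (mul_ne_zero hT.ip.ne_zero hT.iq.ne_zero) hT.ir.ne_zero,
        natDegree_mul hT.ip.ne_zero hT.iq.ne_zero]
      have := hT.ip.natDegree_pos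
      have := hT.iq.natDegree_pos
      have := hT.ir.natDegree_pos
      omega
    obtain ⟨c, hc, hj⟩ := hT.tower h3 h0 h1 hl (by omega) hl3 hd
    exact ⟨c, hc, fun j => of_tri (hj j)⟩
  · intro l hl hl5 hd u hu
    have hom : u ^ 2 + u + 1 ≠ 0 := by
      intro h0
      apply Pool.Agent.R427.TS.neg_three h6 hq (algebraMap k (RatFunc k) (2 * u + 1))
      rw [← map_pow, show (-3 : RatFunc k) = algebraMap k (RatFunc k) (-3) by
        rw [map_neg, map_ofNat]]
      congr 1
      linear_combination 4 * h0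
    obtain ⟨c, hc, hj⟩ := Pool.Agent.R427.TS.explicit h3 hq hu hom hl hl5 hd
    exact ⟨c, hc, fun j => of_tri (hj j)⟩

end Pool.Agent.Results.MP_1bad5e_ag.ThreePrimes
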